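import Mathlib
import Pool.Agent.Lib.MP_b6bd4b_an.Space
import Pool.Agent.Lib.MP_b6bd4b_an.Sum

/-!
The Bishop-Phelps-Bollobás strengthening of property B fails for the Euclidean plane.
-/

open Complex Pool.Agent.Lib.MP_b6bd4b_an

namespace Pool.Agent.Results.MP_b6bd4b_an.NoUniformBollobas

/-- There is a real Banach space `X` such that the norm attaining operators from `X` to the
Euclidean plane are dense, and nevertheless there is an operator `T : X → ℓ₂²` with `‖T‖ = 1`
such that for every `η > 0` there is a unit vector `x` with `‖T x‖ > 1 - η` and the following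
property: whenever an operator `S` with `‖S - T‖ ≤ 1/50` attains its norm at a unit vector `z`,
then `‖z - x‖ ≥ 1`. -/
theorem result : ∃ (X : Type) (_ : NormedAddCommGroup X) (_ : NormedSpace ℝ X)
    (_ : CompleteSpace X),
    Dense {S : X →L[ℝ] EuclideanSpace ℝ (Fin 2) | ∃ x : X, ‖x‖ ≤ 1 ∧ ‖S x‖ = ‖S‖} ∧
    ∃ T : X →L[ℝ] EuclideanSpace ℝ (Fin 2), ‖T‖ = 1 ∧
      ∀ η : ℝ, 0 < η → ∃ x : X, ‖x‖ = 1 ∧ 1 - η < ‖T x‖ ∧
        ∀ (S : X →L[ℝ] EuclideanSpace ℝ (Fin 2)) (z : X), ‖S - T‖ ≤ 1 / 50 → ‖z‖ = 1 →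
          ‖S z‖ = ‖S‖ → 1 ≤ ‖z - x‖ := by
  let K : ℕ → ℕ := fun n => 2 * n + 9
  have hK : ∀ n, 9 ≤ K n := fun n => by simp only [K]; omega
  have hK0 : ∀ n, 0 < K n := fun n => by simp only [K]; omega
  have hKo : ∀ n, Odd (K n) := fun n => ⟨n + 4, by simp only [K]; ring⟩
  let Z : ℕ → Type := fun n => Space.Y (K n)
  letI : ∀ n, NormedAddCommGroup (Z n) := fun n =>
    inferInstanceAs (NormedAddCommGroup (Space.Y (K n)))
  letI : ∀ n, NormedSpace ℝ (Z n) := fun n =>
    inferInstanceAs (NormedSpace ℝ (Space.Y (K n)))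
  haveI : ∀ n, CompleteSpace (Z n) := fun n =>
    inferInstanceAs (CompleteSpace (Space.Y (K n)))
  haveI : ∀ n, FiniteDimensional ℝ (Z n) := fun n =>
    inferInstanceAs (FiniteDimensional ℝ (Space.Y (K n)))
  haveI : ∀ n, ProperSpace (Z n) := fun n => FiniteDimensional.proper_real (Z n)
  let D : ∀ n, Attain.Data (K n) (Z n) := fun n => Space.data (K n) (hK0 n)
  refine ⟨lp Z 1, inferInstance, inferInstance, inferInstance, Sum.dense_attain, ?_⟩
  let φ : ℂ ≃ₗᵢ[ℝ] EuclideanSpace ℝ (Fin 2) := Complex.orthonormalBasisOneI.repr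
  let T₀ : lp Z 1 →L[ℝ] ℂ := Sum.sumOp (fun n => (D n).T) (fun n => (D n).nT)
  let T : lp Z 1 →L[ℝ] EuclideanSpace ℝ (Fin 2) :=
    (φ.toContinuousLinearEquiv : ℂ →L[ℝ] EuclideanSpace ℝ (Fin 2)).comp T₀
  have hTn : ∀ z, ‖T z‖ = ‖T₀ z‖ := fun z => φ.norm_map (T₀ z)
  have hT₀le : ‖T₀‖ ≤ 1 := LinearMap.mkContinuous_norm_le _ zero_le_one _
  have hTle : ‖T‖ ≤ 1 := by
    apply T.opNorm_le_bound zero_le_one
    intro z
    rw [hTn]
    exact (T₀.le_opNorm z).trans (by gcongr)
  have hsing : ∀ n (y : Z n), T₀ (lp.single 1 n y) = (D n).T y := fun n y =>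
    Sum.sumOp_single (fun n => (D n).T) (fun n => (D n).nT) n y
  refine ⟨T, ?_, ?_⟩
  · apply le_antisymm hTle
    have h1 := T.le_opNorm (lp.single 1 0 ((D 0).δ 0))
    rw [hTn, hsing, (D 0).hT, zpow_zero, norm_one, Sum.norm_single_one] at h1
    have h2 := (D 0).hδ 0
    calc (1 : ℝ) ≤ ‖T‖ * ‖(D 0).δ 0‖ := h1
      _ ≤ ‖T‖ * 1 := by gcongr
      _ = ‖T‖ := mul_one _
  · intro η hη
    -- choose the block
    have hlim : Filter.Tendsto (fun n : ℕ => Real.cos (Real.pi / (2 * (K n : ℝ))))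
        Filter.atTop (nhds 1) := by
      have h1 : Filter.Tendsto (fun n : ℕ => Real.pi / (2 * (K n : ℝ))) Filter.atTop (nhds 0) := by
        apply Filter.Tendsto.div_atTop tendsto_const_nhds
        apply Filter.Tendsto.const_mul_atTop (by norm_num)
        apply tendsto_natCast_atTop_atTop.comp
        apply Filter.tendsto_atTop_mono (f := fun n => n) (fun n => by simp only [K]; omega)
        exact Filter.tendsto_id
      have h2 := (Real.continuous_cos.tendsto 0).comp h1
      rw [Real.cos_zero] at h2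
      exact h2
    obtain ⟨n, hn⟩ := (hlim.eventually (lt_mem_nhds (by linarith : 1 - η < 1))).exists
    -- the midpoint
    set p : Z n := (D n).P 0 with hp
    have hTp : (D n).T p = 1 := by rw [hp, (D n).T_P (hK n), zpow_zero]
    have hNp : (D n).N p = 0 := (D n).N_P 0
    have hp1 : 1 ≤ ‖p‖ := by
      have := (D n).nT p
      rwa [hTp, norm_one] at this
    have hp2 : ‖p‖ ≤ (Real.cos (Real.pi / (2 * K n)))⁻¹ := (D n).norm_P (hK n) 0
    have hcos : 0 < Real.cos (Real.pi / (2 * (K n : ℝ))) := by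
      have := Attain.Data.cos_pos' (hK n)
      linarith
    set x₁ : Z n := ‖p‖⁻¹ • p with hx₁
    have hp0 : 0 < ‖p‖ := by linarith
    refine ⟨lp.single 1 n x₁, ?_, ?_, ?_⟩
    · rw [Sum.norm_single_one, hx₁, norm_smul, norm_inv, norm_norm, inv_mul_cancel₀ hp0.ne']
    · rw [hTn, hsing, hx₁, map_smul, hTp, norm_smul, norm_one, mul_one, norm_inv, norm_norm]
      have h1 : Real.cos (Real.pi / (2 * (K n : ℝ))) ≤ ‖p‖⁻¹ := by
        rw [le_inv_comm₀ hcos hp0]
        exact hp2
      linarith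
    · intro S z hST hz hSz
      -- transfer to `ℂ`
      let S₀ : lp Z 1 →L[ℝ] ℂ :=
        (φ.symm.toContinuousLinearEquiv : EuclideanSpace ℝ (Fin 2) →L[ℝ] ℂ).comp S
      have hS₀n : ∀ y, ‖S₀ y‖ = ‖S y‖ := fun y => φ.symm.norm_map (S y)
      have hdiff : ∀ y, ‖S₀ y - T₀ y‖ ≤ 1 / 50 * ‖y‖ := by
        intro y
        have h1 : S₀ y - T₀ y = φ.symm ((S - T) y) := by
          have h2 : (S - T) y = S y - T y := rfl
          rw [h2, map_sub]
          have h3 : φ.symm (T y) = T₀ y := φ.symm_apply_apply (T₀ y)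
          rw [h3]
          rfl
        rw [h1, φ.symm.norm_map]
        exact (S - T).le_of_opNorm_le hST y
      have hSle : ∀ y, ‖S₀ y‖ ≤ ‖S‖ * ‖y‖ := fun y => by rw [hS₀n]; exact S.le_opNorm y
      have hSn : ‖S‖ ≤ 51 / 50 := by
        have h1 : ‖S‖ ≤ ‖S - T‖ + ‖T‖ := by
          have := norm_add_le (S - T) T
          rwa [sub_add_cancel] at this
        linarith
      -- components
      have hcomp : ∀ m, ‖(D m).N (z m)‖ = ‖z m‖ := by
        intro m
        have h1 := Sum.attain_component S z (by rw [hSz, hz, mul_one]) m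
        let Sm : Z m →L[ℝ] ℂ := S₀.comp (lp.singleContinuousLinearMap ℝ Z 1 m)
        have hSm : ∀ y, Sm y = S₀ (lp.single 1 m y) := fun y => rfl
        apply Attain.attain (D m) (hK m) (hKo m) Sm (R := ‖S‖) hSn
        · intro y
          rw [hSm]
          have := hSle (lp.single 1 m y)
          rwa [Sum.norm_single_one] at this
        · intro y
          rw [hSm, ← hsing m y]
          have := hdiff (lp.single 1 m y)
          rwa [Sum.norm_single_one] at this
        · rw [hSm, hS₀n, h1]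
      -- the distance
      have h1 := Sum.hasSum_norm_one (z - lp.single 1 n x₁)
      have h2 := Sum.hasSum_norm_one z
      have h3 : ∀ m, ‖z m‖ ≤ ‖(z - lp.single 1 n x₁ : lp Z 1) m‖ := by
        intro m
        rw [lp.coeFn_sub, Pi.sub_apply]
        by_cases hm : m = n
        · subst hm
          rw [lp.single_apply_self, ← hcomp m]
          have h4 := (D m).nN (z m - x₁)
          rw [map_sub, hx₁, map_smul, hNp, smul_zero, sub_zero] at h4
          exact h4
        · rw [lp.single_apply_ne _ _ _ hm, sub_zero]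
      have h5 := h2.summable.tsum_le_tsum h3 h1.summable
      rw [h1.tsum_eq, h2.tsum_eq, hz] at h5
      exact h5

end Pool.Agent.Results.MP_b6bd4b_an.NoUniformBollobas
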